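import Pool.Agent.W2helper69.TP.Rep

/-!
# Project TP, piece V: `piece_V`, `piece_CONT`
-/

namespace TP

open MeasureTheory Complex
open scoped ENNReal Real

noncomputable section

namespace V

/-- the square root of the weight -/
def hd (z : ℂ) : ℝ≥0∞ := ENNReal.ofReal (Real.exp (-‖z‖ ^ 2 / 2))

theorem hd_meas : Measurable hd := by
  unfold hd
  fun_prop

theorem hd_sq (z : ℂ) : hd z * hd z = ENNReal.ofReal (Real.exp (-‖z‖ ^ 2)) := by
  unfold hd
  rw [← ENNReal.ofReal_mul (Real.exp_pos _).le, ← Real.exp_add]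
  congr 2
  ring

theorem dens_eq (z : ℂ) : dens z = ENNReal.ofReal (1 / π) * (hd z * hd z) := by
  rw [hd_sq, ← ENNReal.ofReal_mul (by positivity)]
  unfold dens
  congr 1
  ring

theorem wfac_hd (w z : ℂ) : ‖wfac w z‖ₑ * hd z = hd (z - w) := by
  unfold hd
  rw [← ofReal_norm, ← ENNReal.ofReal_mul (norm_nonneg _)]
  congr 1
  have h := norm_wfac w z
  have h1 : (‖wfac w z‖ * Real.exp (-‖z‖ ^ 2 / 2)) ^ 2 = (Real.exp (-‖z - w‖ ^ 2 / 2)) ^ 2 := by
    rw [mul_pow, ← Real.exp_nat_mul, ← Real.exp_nat_mul]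
    push_cast
    rw [show (2 : ℝ) * (-‖z‖ ^ 2 / 2) = -‖z‖ ^ 2 by ring,
      show (2 : ℝ) * (-‖z - w‖ ^ 2 / 2) = -‖z - w‖ ^ 2 by ring, h]
  exact (pow_left_inj₀ (by positivity) (by positivity) (by norm_num)).1 h1

theorem cs {A B : ℂ → ℝ≥0∞} (hA : Measurable A) (hB : Measurable B) :
    (∫⁻ z, A z * B z) ^ 2 ≤ (∫⁻ z, A z) * ∫⁻ z, A z * B z ^ 2 := by
  have h := ENNReal.lintegral_mul_le_Lp_mul_Lq ((volume : Measure ℂ).withDensity A)
    Real.HolderConjugate.two_two (f := fun _ => 1) (g := B) aemeasurable_const hB.aemeasurable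
  simp only [Pi.mul_apply, one_mul, ENNReal.rpow_ofNat] at h
  rw [lintegral_withDensity_eq_lintegral_mul _ hA hB,
    lintegral_withDensity_eq_lintegral_mul _ hA measurable_const,
    lintegral_withDensity_eq_lintegral_mul _ hA (hB.pow_const 2)] at h
  simp only [Pi.mul_apply, one_pow, mul_one] at h
  calc (∫⁻ z, A z * B z) ^ 2
      ≤ ((∫⁻ z, A z) ^ (1 / 2 : ℝ) * (∫⁻ z, A z * B z ^ 2) ^ (1 / 2 : ℝ)) ^ 2 := by gcongr
    _ = _ := by
        rw [mul_pow, ← ENNReal.rpow_natCast, ← ENNReal.rpow_natCast, ← ENNReal.rpow_mul,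
          ← ENNReal.rpow_mul]
        norm_num

theorem young {A B : ℂ → ℝ≥0∞} (hA : Measurable A) (hB : Measurable B) :
    ∫⁻ w, (∫⁻ z, A (z - w) * B z) ^ 2 ≤ (∫⁻ z, A z) ^ 2 * ∫⁻ z, B z ^ 2 := by
  calc ∫⁻ w, (∫⁻ z, A (z - w) * B z) ^ 2
      ≤ ∫⁻ w, (∫⁻ z, A z) * ∫⁻ z, A (z - w) * B z ^ 2 := by
        apply lintegral_mono
        intro w
        have h := cs (A := fun z => A (z - w)) (hA.comp (measurable_id.sub_const w)) hB
        rwa [lintegral_sub_right_eq_self (fun z => A z) w] at h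
    _ = (∫⁻ z, A z) * ∫⁻ w, ∫⁻ z, A (z - w) * B z ^ 2 := by
        rw [lintegral_const_mul]
        exact Measurable.lintegral_prod_right (by fun_prop)
    _ = (∫⁻ z, A z) * ∫⁻ z, ∫⁻ w, A (z - w) * B z ^ 2 := by
        rw [lintegral_lintegral_swap]
        exact Measurable.aemeasurable (by unfold Function.uncurry; fun_prop)
    _ = (∫⁻ z, A z) * ∫⁻ z, (∫⁻ w, A w) * B z ^ 2 := by
        congr 1
        apply lintegral_congr
        intro z
        rw [lintegral_mul_const _ (by fun_prop), lintegral_sub_left_eq_self (fun z => A z) z]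
    _ = _ := by
        rw [lintegral_const_mul _ (by fun_prop)]
        ring

instance : SFinite gm := by
  unfold gm
  infer_instance

theorem gm_lint {F : ℂ → ℝ≥0∞} (hF : Measurable F) :
    ∫⁻ z, F z ∂gm = ∫⁻ z, dens z * F z := by
  rw [gm_def, lintegral_withDensity_eq_lintegral_mul _ dens_meas hF]
  rfl

/-- the matrix coefficient as an integral -/
theorem coef (u f : H) (w : ℂ) :
    inner ℂ (W w u) f = ∫ z, starRingEnd ℂ (wfac w z * u (z - w)) * f z ∂gm := by
  rw [L2.inner_def]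
  apply integral_congr_ae
  filter_upwards [W_coe w u] with z hz
  rw [hz, RCLike.inner_apply]
  ring

theorem coef_meas (u f : H) : StronglyMeasurable (fun w : ℂ => inner ℂ (W w u) f) := by
  simp_rw [coef]
  apply StronglyMeasurable.integral_prod_right
  have h1 : Measurable (u : ℂ → ℂ) := (Lp.stronglyMeasurable u).measurable
  have h2 : Measurable (f : ℂ → ℂ) := (Lp.stronglyMeasurable f).measurable
  apply Measurable.stronglyMeasurable
  unfold Function.uncurry wfac
  fun_prop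

theorem coef_le (u f : H) (w : ℂ) :
    ‖inner ℂ (W w u) f‖ₑ ≤ ENNReal.ofReal (1 / π) *
      ∫⁻ z, (‖u (z - w)‖ₑ * hd (z - w)) * (‖f z‖ₑ * hd z) := by
  have h1 : Measurable (u : ℂ → ℂ) := (Lp.stronglyMeasurable u).measurable
  have h2 : Measurable (f : ℂ → ℂ) := (Lp.stronglyMeasurable f).measurable
  have h3 := hd_meas
  rw [coef]
  refine (enorm_integral_le_lintegral_enorm _).trans (le_of_eq ?_)
  have hcj : Measurable (fun z : ℂ => starRingEnd ℂ z) := Complex.continuous_conj.measurable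
  have hw := (wfac_cont w).measurable
  have h4 : Measurable (fun z : ℂ => starRingEnd ℂ (wfac w z * u (z - w))) :=
    hcj.comp (by fun_prop)
  rw [gm_lint (by fun_prop), ← lintegral_const_mul _ (by fun_prop)]
  apply lintegral_congr
  intro z
  rw [dens_eq, enorm_mul, RCLike.enorm_conj, enorm_mul, ← wfac_hd w z]
  ring

end V

theorem piece_V : P_V := by
  intro u hu f
  have h1 : Measurable (u : ℂ → ℂ) := (Lp.stronglyMeasurable u).measurable
  have h2 : Measurable (f : ℂ → ℂ) := (Lp.stronglyMeasurable f).measurable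
  have h3 := V.hd_meas
  set A : ℂ → ℝ≥0∞ := fun z => ‖u z‖ₑ * V.hd z with hA
  set B : ℂ → ℝ≥0∞ := fun z => ‖f z‖ₑ * V.hd z with hB
  have hAm : Measurable A := by fun_prop
  have hBm : Measurable B := by fun_prop
  have key : ∫⁻ w, ‖inner ℂ (W w u) f‖ₑ ^ 2 ≤
      ENNReal.ofReal (1 / π) ^ 2 * ((∫⁻ z, A z) ^ 2 * ∫⁻ z, B z ^ 2) := by
    calc ∫⁻ w, ‖inner ℂ (W w u) f‖ₑ ^ 2
        ≤ ∫⁻ w, ENNReal.ofReal (1 / π) ^ 2 * (∫⁻ z, A (z - w) * B z) ^ 2 := by
          apply lintegral_mono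
          intro w
          change ‖inner ℂ (W w u) f‖ₑ ^ 2 ≤
            ENNReal.ofReal (1 / π) ^ 2 * (∫⁻ z, A (z - w) * B z) ^ 2
          rw [← mul_pow]
          gcongr
          exact V.coef_le u f w
      _ = ENNReal.ofReal (1 / π) ^ 2 * ∫⁻ w, (∫⁻ z, A (z - w) * B z) ^ 2 := by
          rw [lintegral_const_mul]
          exact (Measurable.lintegral_prod_right (by fun_prop)).pow_const 2
      _ ≤ _ := by
          gcongr
          exact V.young hAm hBm
  have hAi : ∫⁻ z, A z = ENNReal.ofReal (∫ z : ℂ, ‖u z‖ * Real.exp (-‖z‖ ^ 2 / 2)) := by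
    rw [ofReal_integral_eq_lintegral_ofReal hu (Filter.Eventually.of_forall fun z => by positivity)]
    apply lintegral_congr
    intro z
    rw [ENNReal.ofReal_mul (norm_nonneg _), ofReal_norm]
    rfl
  have hBi : ∫⁻ z, B z ^ 2 = ENNReal.ofReal (π * ‖f‖ ^ 2) := by
    have e1 : ENNReal.ofReal (‖f‖ ^ 2) = ∫⁻ z, ‖f z‖ₑ ^ 2 ∂gm := by
      rw [ENNReal.ofReal_pow (norm_nonneg _), ofReal_norm, Lp.enorm_def,
        eLpNorm_eq_lintegral_rpow_enorm_toReal (by norm_num) (by norm_num)]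
      rw [← ENNReal.rpow_natCast, ← ENNReal.rpow_mul]
      norm_num
    have e2 : ENNReal.ofReal π * ENNReal.ofReal (1 / π) = 1 := by
      rw [← ENNReal.ofReal_mul Real.pi_pos.le]
      rw [mul_one_div_cancel Real.pi_ne_zero, ENNReal.ofReal_one]
    rw [ENNReal.ofReal_mul Real.pi_pos.le, e1, V.gm_lint (by fun_prop),
      ← lintegral_const_mul _ (by have := dens_meas; fun_prop)]
    apply lintegral_congr
    intro z
    rw [V.dens_eq]
    change (‖f z‖ₑ * V.hd z) ^ 2 = _
    calc (‖f z‖ₑ * V.hd z) ^ 2 = 1 * ((V.hd z * V.hd z) * ‖f z‖ₑ ^ 2) := by ring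
      _ = _ := by rw [← e2]; ring
  have hfin : ∫⁻ w, ‖inner ℂ (W w u) f‖ₑ ^ 2 ≤ ENNReal.ofReal ((1 / π) *
      (∫ z : ℂ, ‖u z‖ * Real.exp (-‖z‖ ^ 2 / 2)) ^ 2 * ‖f‖ ^ 2) := by
    refine key.trans (le_of_eq ?_)
    have hp : 0 ≤ ∫ z : ℂ, ‖u z‖ * Real.exp (-‖z‖ ^ 2 / 2) :=
      integral_nonneg fun z => by positivity
    rw [hAi, hBi, ← ENNReal.ofReal_pow (by positivity), ← ENNReal.ofReal_pow hp,
      ← ENNReal.ofReal_mul (by positivity), ← ENNReal.ofReal_mul (by positivity)]
    congr 1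
    field_simp
  have hmeas := V.coef_meas u f
  refine ⟨?_, ?_⟩
  · rw [memLp_two_iff_integrable_sq_norm hmeas.aestronglyMeasurable]
    refine ⟨(hmeas.norm.pow 2).aestronglyMeasurable, ?_⟩
    unfold HasFiniteIntegral
    refine lt_of_le_of_lt ?_ (lt_of_le_of_lt hfin ENNReal.ofReal_lt_top)
    apply lintegral_mono
    intro w
    simp
  · have hm2 : AEStronglyMeasurable (fun w : ℂ => ‖inner ℂ (W w u) f‖ ^ 2) volume :=
      (hmeas.norm.pow 2).aestronglyMeasurable
    rw [integral_eq_lintegral_of_nonneg_ae (Filter.Eventually.of_forall fun w => sq_nonneg _) hm2]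
    apply ENNReal.toReal_le_of_le_ofReal (by positivity)
    refine le_trans (le_of_eq ?_) hfin
    apply lintegral_congr
    intro w
    rw [ENNReal.ofReal_pow (norm_nonneg _), ofReal_norm]

namespace V

instance : IsFiniteMeasure gm := by
  have h := Rep.pol_int (F := fun _ => 1) continuous_const (C := 1) (n := 0) (by simp)
  have h2 := (integrable_const_iff (μ := gm) (c := (1 : ℝ))).1 h
  simpa using h2

/-- exponential growth functions are in `L²(gm)` -/
theorem exp_memLp (M : ℝ) (_hM : 0 ≤ M) : MemLp (fun z : ℂ => Real.exp (M * ‖z‖)) 2 gm := by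
  have hc : Continuous (fun z : ℂ => Real.exp (M * ‖z‖)) := by fun_prop
  rw [memLp_two_iff_integrable_sq_norm hc.aestronglyMeasurable]
  rw [gm_def, integrable_withDensity_iff dens_meas
    (Filter.Eventually.of_forall fun z => ENNReal.ofReal_lt_top)]
  refine Integrable.mono' (Rep.gauss_int.const_mul (Real.exp (2 * M ^ 2))) ?_ ?_
  · have : Measurable (fun x => (dens x).toReal) := dens_meas.ennreal_toReal
    exact ((by fun_prop : Measurable (fun z : ℂ => ‖Real.exp (M * ‖z‖)‖ ^ 2)).mul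
      this).aestronglyMeasurable
  · filter_upwards with z
    unfold dens
    rw [ENNReal.toReal_ofReal (by positivity), Real.norm_eq_abs, abs_of_nonneg (by positivity),
      Real.norm_eq_abs, abs_of_pos (Real.exp_pos _), ← Real.exp_nat_mul]
    have h2 : Real.exp (-‖z‖ ^ 2) / π ≤ Real.exp (-‖z‖ ^ 2) := by
      apply div_le_self (Real.exp_pos _).le
      linarith [Real.pi_gt_three]
    calc Real.exp ((2 : ℕ) * (M * ‖z‖)) * (Real.exp (-‖z‖ ^ 2) / π)
        ≤ Real.exp ((2 : ℕ) * (M * ‖z‖)) * Real.exp (-‖z‖ ^ 2) := by gcongr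
      _ = Real.exp ((2 : ℕ) * (M * ‖z‖) + -‖z‖ ^ 2) := by rw [← Real.exp_add]
      _ ≤ Real.exp (2 * M ^ 2 + -(1 / 2) * ‖z‖ ^ 2) := by
          apply Real.exp_le_exp.2
          push_cast
          nlinarith [sq_nonneg (2 * M - ‖z‖)]
      _ = _ := by rw [← Real.exp_add]

theorem wfac_bd (w z : ℂ) (M : ℝ) (hw : ‖w‖ ≤ M) : ‖wfac w z‖ ≤ Real.exp (M * ‖z‖) := by
  unfold wfac
  rw [Complex.norm_exp]
  apply Real.exp_le_exp.2
  rw [Complex.sub_re, Complex.ofReal_re]
  have h1 : (z * starRingEnd ℂ w).re ≤ ‖z * starRingEnd ℂ w‖ := Complex.re_le_norm _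
  rw [norm_mul, RCLike.norm_conj] at h1
  have h2 : ‖z‖ * ‖w‖ ≤ M * ‖z‖ := by
    rw [mul_comm]
    exact mul_le_mul_of_nonneg_right hw (norm_nonneg _)
  nlinarith [sq_nonneg ‖w‖]

end V

theorem piece_CONT : P_CONT := by
  have key : ∀ g : ℂ → ℂ, Continuous g → ∀ C : ℝ, (∀ z, ‖g z‖ ≤ C) → ∀ f : H, f =ᵐ[gm] g →
      Continuous (fun w : ℂ => W w f) := by
    intro g hg C hC f hf
    rw [continuous_iff_continuousAt]
    intro w₀
    have hin : Filter.Tendsto (fun w : ℂ => RCLike.re (inner ℂ (W w f) (W w₀ f)))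
        (nhds w₀) (nhds (‖f‖ ^ 2)) := by
      have e1 : ∀ w : ℂ, inner ℂ (W w f) (W w₀ f) =
          ∫ z, starRingEnd ℂ (wfac w z * g (z - w)) * (W w₀ f) z ∂gm := by
        intro w
        rw [L2.inner_def]
        apply integral_congr_ae
        filter_upwards [W_congr w hf] with z hz
        rw [hz, RCLike.inner_apply]
        ring
      have hca : ContinuousAt (fun w : ℂ =>
          ∫ z, starRingEnd ℂ (wfac w z * g (z - w)) * (W w₀ f) z ∂gm) w₀ := by
        have hC0 : 0 ≤ C := (norm_nonneg _).trans (hC 0)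
        have hb : Integrable (fun z => C * (Real.exp ((‖w₀‖ + 1) * ‖z‖) * ‖(W w₀ f) z‖)) gm :=
          (MemLp.integrable_mul (V.exp_memLp (‖w₀‖ + 1) (by positivity))
            (Lp.memLp (W w₀ f)).norm).const_mul C
        refine continuousAt_of_dominated (bound := fun z =>
          C * (Real.exp ((‖w₀‖ + 1) * ‖z‖) * ‖(W w₀ f) z‖)) ?_ ?_ hb ?_
        · refine Filter.Eventually.of_forall fun w => ?_
          have h1 := wfac_cont w
          exact (by fun_prop : Continuous fun z =>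
            starRingEnd ℂ (wfac w z * g (z - w))).aestronglyMeasurable.mul
              (Lp.aestronglyMeasurable (W w₀ f))
        · filter_upwards [Metric.ball_mem_nhds w₀ one_pos] with w hw
          filter_upwards with z
          have hw' : ‖w‖ ≤ ‖w₀‖ + 1 := by
            have h1 : ‖w - w₀‖ < 1 := by simpa [dist_eq_norm] using hw
            have h2 := norm_sub_norm_le w w₀
            linarith
          rw [norm_mul, RCLike.norm_conj, norm_mul]
          have h1 := V.wfac_bd w z _ hw'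
          have h2 := hC (z - w)
          calc ‖wfac w z‖ * ‖g (z - w)‖ * ‖(W w₀ f) z‖
              ≤ Real.exp ((‖w₀‖ + 1) * ‖z‖) * C * ‖(W w₀ f) z‖ := by gcongr
            _ = _ := by ring
        · filter_upwards with z
          unfold wfac
          fun_prop
      have h1 := (RCLike.continuous_re (K := ℂ)).continuousAt.comp hca
      rw [ContinuousAt] at h1
      have e2 : RCLike.re (∫ z, starRingEnd ℂ (wfac w₀ z * g (z - w₀)) * (W w₀ f) z ∂gm) =
          ‖f‖ ^ 2 := by
        rw [← e1, inner_self_eq_norm_sq, (W w₀).norm_map]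
      simp only [Function.comp_def] at h1
      rw [e2] at h1
      simpa only [e1] using h1
    have h2 : Filter.Tendsto (fun w : ℂ => ‖W w f - W w₀ f‖ ^ 2) (nhds w₀) (nhds 0) := by
      have e : (fun w : ℂ => ‖W w f - W w₀ f‖ ^ 2) =
          fun w => 2 * ‖f‖ ^ 2 - 2 * RCLike.re (inner ℂ (W w f) (W w₀ f)) := by
        funext w
        rw [@norm_sub_sq ℂ, (W w).norm_map, (W w₀).norm_map]
        ring
      rw [e]
      have := (hin.const_mul 2).const_sub (2 * ‖f‖ ^ 2)
      simpa using this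
    rw [ContinuousAt, tendsto_iff_norm_sub_tendsto_zero]
    have h3 := h2.sqrt
    simpa [Real.sqrt_sq] using h3
  intro f
  apply continuous_of_uniform_approx_of_continuous
  intro s hs
  obtain ⟨ε, hε, hs⟩ := Metric.mem_uniformity_dist.1 hs
  obtain ⟨g, hg, hgm⟩ := (Lp.memLp f).exists_boundedContinuous_eLpNorm_sub_le (by norm_num)
    (ε := ENNReal.ofReal (ε / 2)) (by simpa using hε)
  refine ⟨fun w => W w (hgm.toLp g), key g g.continuous ‖g‖ g.norm_coe_le_norm _ hgm.coeFn_toLp,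
    fun w => hs ?_⟩
  rw [dist_eq_norm, ← map_sub, (W w).norm_map]
  have e : f - hgm.toLp g = ((Lp.memLp f).sub hgm).toLp _ := by
    rw [MemLp.toLp_sub (Lp.memLp f) hgm, Lp.toLp_coeFn]
  rw [e, Lp.norm_toLp]
  refine lt_of_le_of_lt (ENNReal.toReal_le_of_le_ofReal (by positivity) hg) (by linarith)

end

end TP
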