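import Pool.Agent.W2helper17.TP.Stm

/-!
# Project TP, piece REP: `piece_POL`, `piece_OM`, `piece_REP`
-/

namespace TP

open MeasureTheory Complex
open scoped ENNReal Real

noncomputable section

namespace Rep

/-! ### Leibniz formula -/

theorem tp_eq {j : ℕ} {g : ℂ → ℂ} (hg : Differentiable ℂ g) (z : ℂ) :
    tp j g z = ∑ m ∈ Finset.range (j + 1),
      (1 / (j.factorial : ℂ)) * ((j.choose m : ℂ) * (-1) ^ m) *
        ((starRingEnd ℂ z) ^ m * iteratedDeriv (j - m) g z) := by
  unfold tp
  have h1 : (fun u => exp (-(u * starRingEnd ℂ z)) * g u) =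
      (fun u => exp ((-(starRingEnd ℂ z)) * u)) * g := by
    funext u
    simp only [Pi.mul_apply]
    congr 2
    ring
  rw [h1, iteratedDeriv_mul (by fun_prop) hg.contDiff.contDiffAt, Finset.mul_sum, Finset.mul_sum]
  apply Finset.sum_congr rfl
  intro m _
  rw [iteratedDeriv_cexp_const_mul]
  have h2 : exp (z * starRingEnd ℂ z) * exp (-(starRingEnd ℂ z) * z) = 1 := by
    rw [← Complex.exp_add, ← Complex.exp_zero]
    congr 1
    ring
  have h3 : (-(starRingEnd ℂ z)) ^ m = (-1) ^ m * (starRingEnd ℂ z) ^ m := by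
    rw [← neg_one_mul, mul_pow]
  rw [h3]
  calc 1 / (j.factorial : ℂ) * (exp (z * starRingEnd ℂ z) *
        ((j.choose m : ℂ) * ((-1) ^ m * (starRingEnd ℂ z) ^ m * exp (-(starRingEnd ℂ z) * z)) *
          iteratedDeriv (j - m) g z))
      = 1 / (j.factorial : ℂ) * ((j.choose m : ℂ) * (-1) ^ m) *
        ((starRingEnd ℂ z) ^ m * iteratedDeriv (j - m) g z) *
        (exp (z * starRingEnd ℂ z) * exp (-(starRingEnd ℂ z) * z)) := by ring
    _ = _ := by rw [h2, mul_one]

theorem idiff {g : ℂ → ℂ} (hg : Differentiable ℂ g) (n : ℕ) :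
    Differentiable ℂ (iteratedDeriv n g) :=
  (hg.contDiff (n := (n + 1 : ℕ))).differentiable_iteratedDeriv n (by exact_mod_cast Nat.lt_succ_self n)

theorem tp_cont {j : ℕ} {g : ℂ → ℂ} (hg : Differentiable ℂ g) : Continuous (tp j g) := by
  have h : tp j g = fun z => ∑ m ∈ Finset.range (j + 1),
      (1 / (j.factorial : ℂ)) * ((j.choose m : ℂ) * (-1) ^ m) *
        ((starRingEnd ℂ z) ^ m * iteratedDeriv (j - m) g z) := by
    funext z; exact tp_eq hg z
  rw [h]
  refine continuous_finsetSum _ fun m _ => ?_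
  have := (idiff hg (j - m)).continuous
  fun_prop

/-! ### circle averages -/

/-- circle average of `conj z ^ m * h z` -/
theorem circ_avg (m : ℕ) {h : ℂ → ℂ} (hh : Differentiable ℂ h) (R : ℝ) (hR : 0 ≤ R) :
    Real.circleAverage (fun z => (starRingEnd ℂ z) ^ m * h z) 0 R =
      (R : ℂ) ^ (2 * m) * (iteratedDeriv m h 0 / m.factorial) := by
  rcases hR.eq_or_lt with h0 | h0
  · rw [← h0, Real.circleAverage_zero]
    rcases m with _ | m
    · simp
    · simp
  · rw [Real.circleAverage_eq_circleIntegral h0.ne']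
    have e : (∮ z in C(0, R), (z - 0)⁻¹ • ((starRingEnd ℂ z) ^ m * h z)) =
        (R : ℂ) ^ (2 * m) * ∮ z in C(0, R), (1 / (z - 0) ^ (m + 1)) • h z := by
      rw [← smul_eq_mul, ← circleIntegral.integral_smul]
      apply circleIntegral.integral_congr h0.le
      intro z hz
      have hz' : ‖z‖ = R := by simpa using hz
      have hz0 : z ≠ 0 := by
        rintro rfl
        rw [norm_zero] at hz'
        exact h0.ne hz'
      have hc : z * starRingEnd ℂ z = (R : ℂ) ^ 2 := by
        rw [Complex.mul_conj, Complex.normSq_eq_norm_sq, hz']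
        push_cast
        ring
      simp only [smul_eq_mul, sub_zero]
      rw [pow_mul, ← hc, mul_pow]
      field_simp
      ring
    rw [e, (hh.differentiableOn).circleIntegral_one_div_sub_center_pow_smul h0 m]
    have h2 : (2 * (π : ℂ) * I) ≠ 0 := two_pi_I_ne_zero
    simp only [smul_eq_mul]
    field_simp

theorem circ_int {F : ℂ → ℂ} (hF : Continuous F) (R : ℝ) : CircleIntegrable F 0 R :=
  hF.continuousOn.circleIntegrable'

/-- circle average of a product of a function of the norm and `F` -/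
theorem circ_radial (φ : ℝ → ℂ) (F : ℂ → ℂ) (R : ℝ) (hR : 0 ≤ R) :
    Real.circleAverage (fun z => φ ‖z‖ * F z) 0 R = φ R * Real.circleAverage F 0 R := by
  have h1 : Real.circleAverage (fun z => φ ‖z‖ * F z) 0 R =
      Real.circleAverage (fun z => φ R • F z) 0 R := by
    apply Real.circleAverage_congr_sphere
    intro z hz
    have : ‖z‖ = R := by simpa [abs_of_nonneg hR] using hz
    simp only [this, smul_eq_mul]
  rw [h1, Real.circleAverage_fun_smul, smul_eq_mul]

/-! ### rotation averages -/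

theorem rot_avg {F : ℂ → ℂ} (hF : Integrable F (volume : Measure ℂ)) (hFc : Continuous F) :
    ∫ z, F z = ∫ z : ℂ, Real.circleAverage F 0 ‖z‖ := by
  have hrot : ∀ θ : ℝ, MeasurePreserving (fun z : ℂ => exp (θ * I) * z)
      (volume : Measure ℂ) volume := by
    intro θ
    have h := (rotation (Circle.exp θ)).measurePreserving
    have e : ((rotation (Circle.exp θ)) : ℂ → ℂ) = fun z : ℂ => exp (θ * I) * z := by
      funext z
      simp [rotation_apply]
    rwa [e] at h
  have hcont : Continuous (Function.uncurry fun (θ : ℝ) (z : ℂ) => F (exp (θ * I) * z)) := by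
    change Continuous (fun p : ℝ × ℂ => F (exp (p.1 * I) * p.2))
    fun_prop
  have hinv : ∀ θ : ℝ, ∫ z, F (exp (θ * I) * z) = ∫ z, F z := by
    intro θ
    have h := (rotation (Circle.exp θ)).measurePreserving.integral_comp'
      (f := (rotation (Circle.exp θ)).toMeasurableEquiv) F
    simpa [rotation_apply] using h
  have hinvn : ∀ θ : ℝ, ∫ z, ‖F (exp (θ * I) * z)‖ = ∫ z, ‖F z‖ := by
    intro θ
    have h := (rotation (Circle.exp θ)).measurePreserving.integral_comp'
      (f := (rotation (Circle.exp θ)).toMeasurableEquiv) (fun z => ‖F z‖)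
    simpa [rotation_apply] using h
  have hint : Integrable (Function.uncurry fun (θ : ℝ) (z : ℂ) => F (exp (θ * I) * z))
      ((volume.restrict (Set.uIoc 0 (2 * π))).prod (volume : Measure ℂ)) := by
    rw [integrable_prod_iff hcont.aestronglyMeasurable]
    refine ⟨Filter.Eventually.of_forall fun θ => ?_, ?_⟩
    · exact (hrot θ).integrable_comp_of_integrable hF
    · simp only [Function.uncurry_apply_pair]
      simp_rw [hinvn]
      have : IsFiniteMeasure ((volume : Measure ℝ).restrict (Set.uIoc 0 (2 * π))) :=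
        ⟨by
          rw [Set.uIoc_of_le (show (0 : ℝ) ≤ 2 * π by positivity), Measure.restrict_apply_univ,
            Real.volume_Ioc]
          exact ENNReal.ofReal_lt_top⟩
      exact integrable_const _
  have hca : ∀ z : ℂ, Real.circleAverage F 0 ‖z‖ =
      (2 * π)⁻¹ • ∫ θ in (0 : ℝ)..2 * π, F (exp (θ * I) * z) := by
    intro z
    rw [Real.circleAverage_eq_integral_add (arg z)]
    congr 1
    apply intervalIntegral.integral_congr
    intro θ _
    simp only
    congr 1
    rw [circleMap_zero]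
    push_cast
    rw [add_mul, Complex.exp_add]
    conv_rhs => rw [← Complex.norm_mul_exp_arg_mul_I z]
    ring
  simp_rw [hca]
  rw [integral_smul, ← intervalIntegral_integral_swap hint]
  simp_rw [hinv]
  rw [intervalIntegral.integral_const, sub_zero, smul_smul, inv_mul_cancel₀ (by positivity),
    one_smul]

theorem gm_integral (F : ℂ → ℂ) :
    ∫ z, F z ∂gm = ∫ z : ℂ, ((Real.exp (-‖z‖ ^ 2) / π : ℝ) : ℂ) * F z := by
  rw [gm_def, integral_withDensity_eq_integral_toReal_smul dens_meas
    (Filter.Eventually.of_forall fun z => ENNReal.ofReal_lt_top)]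
  apply integral_congr_ae
  filter_upwards with z
  unfold dens
  rw [ENNReal.toReal_ofReal (by positivity), Complex.real_smul]

theorem gm_integrable {F : ℂ → ℂ} (hF : Integrable F gm) :
    Integrable (fun z : ℂ => ((Real.exp (-‖z‖ ^ 2) / π : ℝ) : ℂ) * F z) volume := by
  rw [gm_def, integrable_withDensity_iff_integrable_smul' dens_meas
    (Filter.Eventually.of_forall fun z => ENNReal.ofReal_lt_top)] at hF
  refine hF.congr ?_
  filter_upwards with z
  unfold dens
  rw [ENNReal.toReal_ofReal (by positivity), Complex.real_smul]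

/-- rotation averages for the Gaussian measure -/
theorem rot_avg_gm {F : ℂ → ℂ} (hF : Integrable F gm) (hFc : Continuous F) {G : ℝ → ℂ}
    (hG : ∀ R : ℝ, 0 ≤ R → Real.circleAverage F 0 R = G R) :
    ∫ z, F z ∂gm = ∫ z, G ‖z‖ ∂gm := by
  rw [gm_integral, gm_integral, rot_avg (gm_integrable hF) (by fun_prop)]
  apply integral_congr_ae
  filter_upwards with z
  rw [circ_radial (fun r => ((Real.exp (-r ^ 2) / π : ℝ) : ℂ)) F ‖z‖ (norm_nonneg z),
    hG _ (norm_nonneg z)]

/-! ### polynomial growth -/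

theorem exp_bd (n : ℕ) (x : ℝ) (hx : 0 ≤ x) :
    (1 + x) ^ n * Real.exp (-x ^ 2) ≤ n.factorial * Real.exp (3 / 2) * Real.exp (-(1 / 2) * x ^ 2) := by
  have h1 : (1 + x) ^ n ≤ n.factorial * Real.exp (1 + x) := by
    have := Real.pow_div_factorial_le_exp (1 + x) (by linarith) n
    rw [div_le_iff₀ (by positivity)] at this
    linarith
  calc (1 + x) ^ n * Real.exp (-x ^ 2)
      ≤ (n.factorial * Real.exp (1 + x)) * Real.exp (-x ^ 2) := by gcongr
    _ = n.factorial * Real.exp (1 + x - x ^ 2) := by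
        rw [mul_assoc, ← Real.exp_add]; ring_nf
    _ ≤ n.factorial * Real.exp (3 / 2 + -(1 / 2) * x ^ 2) := by
        gcongr
        nlinarith [sq_nonneg (x - 1)]
    _ = _ := by rw [mul_assoc, ← Real.exp_add]

theorem gauss_int : Integrable (fun z : ℂ => Real.exp (-(1 / 2) * ‖z‖ ^ 2)) volume := by
  have h := (GaussianFourier.integrable_cexp_neg_mul_sq_norm_add (V := ℂ) (b := (1 / 2 : ℂ))
    (by norm_num) 0 0).norm
  refine h.congr ?_
  filter_upwards with z
  rw [Complex.norm_exp]
  congr 1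
  simp only [zero_mul, add_zero]
  have : (-(1 / 2 : ℂ) * (‖z‖ : ℂ) ^ 2) = ((-(1 / 2) * ‖z‖ ^ 2 : ℝ) : ℂ) := by push_cast; ring
  rw [this, Complex.ofReal_re]

/-- continuous functions of polynomial growth are integrable -/
theorem pol_int {F : ℂ → ℝ} (hF : Continuous F) {C : ℝ} {n : ℕ}
    (hb : ∀ z, |F z| ≤ C * (1 + ‖z‖) ^ n) : Integrable F gm := by
  rw [gm_def, integrable_withDensity_iff dens_meas
    (Filter.Eventually.of_forall fun z => ENNReal.ofReal_lt_top)]
  have hC : 0 ≤ C := by
    have := (abs_nonneg _).trans (hb 0)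
    simpa using this
  refine Integrable.mono' (gauss_int.const_mul (C * (n.factorial * Real.exp (3 / 2)))) ?_ ?_
  · have : Measurable (fun x => (dens x).toReal) := dens_meas.ennreal_toReal
    exact (hF.measurable.mul this).aestronglyMeasurable
  · filter_upwards with z
    unfold dens
    rw [ENNReal.toReal_ofReal (by positivity), norm_mul, Real.norm_eq_abs, Real.norm_eq_abs,
      abs_of_nonneg (a := Real.exp (-‖z‖ ^ 2) / π) (by positivity)]
    have h1 := exp_bd n ‖z‖ (norm_nonneg z)
    have h2 : Real.exp (-‖z‖ ^ 2) / π ≤ Real.exp (-‖z‖ ^ 2) := by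
      apply div_le_self (Real.exp_pos _).le
      linarith [Real.pi_gt_three]
    calc |F z| * (Real.exp (-‖z‖ ^ 2) / π)
        ≤ (C * (1 + ‖z‖) ^ n) * Real.exp (-‖z‖ ^ 2) :=
          mul_le_mul (hb z) h2 (by positivity) (by positivity)
      _ = C * ((1 + ‖z‖) ^ n * Real.exp (-‖z‖ ^ 2)) := by ring
      _ ≤ C * (n.factorial * Real.exp (3 / 2) * Real.exp (-(1 / 2) * ‖z‖ ^ 2)) := by gcongr
      _ = _ := by ring

end Rep

theorem piece_POL : P_POL := by
  rintro K hK ⟨C, N, hb⟩
  rw [memLp_two_iff_integrable_sq_norm hK.aestronglyMeasurable]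
  refine Rep.pol_int (C := C ^ 2) (n := N * 2) (by fun_prop) fun z => ?_
  rw [abs_of_nonneg (by positivity), pow_mul, ← mul_pow]
  have := hb z
  gcongr

/-- `tp j 1 = (-conj z) ^ j / j!` -/
theorem Rep.tp_one (j : ℕ) (z : ℂ) :
    tp j (fun _ => 1) z = (1 / (j.factorial : ℂ)) * (-(starRingEnd ℂ z)) ^ j := by
  rw [Rep.tp_eq (differentiable_const _), Finset.sum_range_succ]
  have h0 : ∀ m ∈ Finset.range j, (1 / (j.factorial : ℂ)) * ((j.choose m : ℂ) * (-1) ^ m) *
        ((starRingEnd ℂ z) ^ m * iteratedDeriv (j - m) (fun _ : ℂ => (1 : ℂ)) z) = 0 := by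
    intro m hm
    have : j - m ≠ 0 := by
      have := Finset.mem_range.1 hm
      omega
    rw [iteratedDeriv_const, if_neg this]
    simp
  rw [Finset.sum_eq_zero h0, Nat.sub_self, iteratedDeriv_zero, Nat.choose_self]
  have h3 : (-(starRingEnd ℂ z)) ^ j = (-1) ^ j * (starRingEnd ℂ z) ^ j := by
    rw [← neg_one_mul, mul_pow]
  rw [h3]
  push_cast
  ring

theorem Rep.circ_sum (n : ℕ) (a : ℕ → ℂ) {h : ℕ → ℂ → ℂ} (hh : ∀ m, Differentiable ℂ (h m))
    (R : ℝ) (hR : 0 ≤ R) :
    Real.circleAverage (fun z => ∑ m ∈ Finset.range n, a m * ((starRingEnd ℂ z) ^ m * h m z)) 0 R =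
      ∑ m ∈ Finset.range n, a m * ((R : ℂ) ^ (2 * m) * (iteratedDeriv m (h m) 0 / m.factorial)) := by
  rw [Real.circleAverage_fun_sum]
  · apply Finset.sum_congr rfl
    intro m _
    rw [← Rep.circ_avg m (hh m) R hR, ← smul_eq_mul (a m), ← Real.circleAverage_fun_smul]
    rfl
  · intro m _
    apply Rep.circ_int
    have := (hh m).continuous
    fun_prop

/-- nonnegative continuous functions which do not vanish identically have positive integral -/
theorem Rep.gm_pos {φ : ℂ → ℝ} (hc : Continuous φ) (h0 : ∀ z, 0 ≤ φ z) (hi : Integrable φ gm)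
    {a : ℂ} (ha : φ a ≠ 0) : 0 < ∫ z, φ z ∂gm := by
  rw [integral_pos_iff_support_of_nonneg h0 hi]
  have hop : IsOpen (Function.support φ) := hc.isOpen_support
  have h1 : 0 < (volume : Measure ℂ) (Function.support φ) := hop.measure_pos _ ⟨a, ha⟩
  rw [pos_iff_ne_zero] at h1 ⊢
  exact fun h => h1 (vol_ac h)

theorem Rep.pow_bd (n : ℕ) (z : ℂ) : |‖z‖ ^ n| ≤ 1 * (1 + ‖z‖) ^ n := by
  rw [abs_of_nonneg (by positivity), one_mul]
  have := norm_nonneg z
  gcongr
  linarith

theorem piece_OM : P_OM := by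
  intro j
  refine ⟨Rep.tp_one j, ((∫ z : ℂ, (‖z‖ ^ (2 * j)) ∂gm : ℝ) : ℂ) * (1 / (j.factorial : ℂ)) ^ 2,
    ?_, ?_⟩
  · have h := Rep.gm_pos (φ := fun z : ℂ => ‖z‖ ^ (2 * j)) (by fun_prop)
      (fun z => by positivity) (Rep.pol_int (by fun_prop) (Rep.pow_bd (2 * j))) (a := 1) (by simp)
    have h2 : (j.factorial : ℂ) ≠ 0 := by exact_mod_cast j.factorial_ne_zero
    refine mul_ne_zero ?_ (pow_ne_zero _ (one_div_ne_zero h2))
    exact_mod_cast h.ne'
  · intro g hg hL
    have hK : MemLp (fun z => starRingEnd ℂ (tp j (fun _ => 1) z)) 2 gm := by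
      apply piece_POL
      · have := Rep.tp_cont (j := j) (g := fun _ => 1) (differentiable_const _)
        fun_prop
      · refine ⟨1 / j.factorial, j, fun z => ?_⟩
        rw [RCLike.norm_conj, Rep.tp_one]
        simp only [norm_mul, norm_div, norm_one, RCLike.norm_natCast, norm_pow, norm_neg,
          RCLike.norm_conj]
        have := norm_nonneg z
        gcongr
        linarith
    have hint : Integrable (fun z => starRingEnd ℂ (tp j (fun _ => 1) z) * tp j g z) gm :=
      MemLp.integrable_mul hK hL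
    have hcont : Continuous (fun z => starRingEnd ℂ (tp j (fun _ => 1) z) * tp j g z) := by
      have h1 := Rep.tp_cont (j := j) (g := fun _ => 1) (differentiable_const _)
      have h2 := Rep.tp_cont (j := j) hg
      fun_prop
    rw [Rep.rot_avg_gm (G := fun R => ((R ^ (2 * j) : ℝ) : ℂ) * ((1 / (j.factorial : ℂ)) ^ 2 * g 0))
      hint hcont]
    · rw [integral_mul_const, integral_complex_ofReal]
      ring
    · intro R hR
      have e : (fun z => starRingEnd ℂ (tp j (fun _ => 1) z) * tp j g z) = fun z =>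
          ∑ m ∈ Finset.range (j + 1), ((1 / (j.factorial : ℂ)) ^ 2 * (-1) ^ j *
            ((j.choose m : ℂ) * (-1) ^ m)) * ((starRingEnd ℂ z) ^ m *
              (z ^ j * iteratedDeriv (j - m) g z)) := by
        funext z
        rw [Rep.tp_one, Rep.tp_eq hg, Finset.mul_sum]
        apply Finset.sum_congr rfl
        intro m _
        have h3 : starRingEnd ℂ (1 / (j.factorial : ℂ) * (-(starRingEnd ℂ z)) ^ j) =
            1 / (j.factorial : ℂ) * ((-1) ^ j * z ^ j) := by
          rw [← neg_one_mul, mul_pow]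
          simp
        rw [h3]
        ring
      rw [e, Rep.circ_sum (j + 1) _ (h := fun m z => z ^ j * iteratedDeriv (j - m) g z)
        (fun m => (differentiable_id.pow j).mul (Rep.idiff hg _)) R hR]
      have hd : ∀ m ∈ Finset.range (j + 1),
          iteratedDeriv m (fun z => z ^ j * iteratedDeriv (j - m) g z) 0 =
            if m = j then (j.factorial : ℂ) * g 0 else 0 := by
        intro m hm
        have hmj : m ≤ j := Nat.lt_succ_iff.1 (Finset.mem_range.1 hm)
        rw [iteratedDeriv_fun_mul (by fun_prop) ((Rep.idiff hg _).contDiff.contDiffAt)]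
        have hz : ∀ i ∈ Finset.range (m + 1), i ≠ j → (m.choose i : ℂ) *
            iteratedDeriv i (fun z : ℂ => z ^ j) 0 *
              iteratedDeriv (m - i) (iteratedDeriv (j - m) g) 0 = 0 := by
          intro i _ hi
          rw [iteratedDeriv_fun_pow_zero, if_neg hi]
          simp
        split_ifs with hmj'
        · subst hmj'
          rw [Finset.sum_eq_single m (fun i hi hne => hz i hi hne) (by simp)]
          rw [iteratedDeriv_fun_pow_zero, if_pos rfl]
          simp
        · apply Finset.sum_eq_zero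
          intro i hi
          apply hz i hi
          have := Finset.mem_range.1 hi
          omega
      rw [Finset.sum_congr rfl fun m hm => by rw [hd m hm]]
      rw [Finset.sum_eq_single j]
      · have h2 : (j.factorial : ℂ) ≠ 0 := by exact_mod_cast j.factorial_ne_zero
        have h4 : ((-1 : ℂ)) ^ j * (-1) ^ j = 1 := by
          rw [← mul_pow]; simp
        simp only [if_true, Nat.choose_self]
        push_cast
        field_simp
        linear_combination (R : ℂ) ^ (2 * j) * g 0 * h4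
      · intro m _ hne
        rw [if_neg hne]
        simp
      · simp

/-- the radial polynomial (Laguerre polynomial of the square) -/
def Rep.lag (j : ℕ) (r : ℝ) : ℝ := ∑ m ∈ Finset.range (j + 1),
  (1 / (j.factorial : ℝ)) * ((j.choose m : ℝ) * (-1) ^ m) *
    ((j.descFactorial (j - m) : ℕ) : ℝ) * r ^ (2 * m)

theorem Rep.lag_cont (j : ℕ) : Continuous (Rep.lag j) := by
  unfold Rep.lag
  fun_prop

theorem Rep.lag_zero (j : ℕ) : Rep.lag j 0 = 1 := by
  unfold Rep.lag
  rw [Finset.sum_eq_single 0]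
  · rw [Nat.sub_zero, Nat.descFactorial_self]
    have : (j.factorial : ℝ) ≠ 0 := by exact_mod_cast j.factorial_ne_zero
    simp
    field_simp
  · intro m _ hm
    simp [hm]
  · simp

theorem Rep.lag_bd (j : ℕ) (r : ℝ) (hr : 0 ≤ r) :
    |Rep.lag j r| ≤ (∑ m ∈ Finset.range (j + 1), |(1 / (j.factorial : ℝ)) *
      ((j.choose m : ℝ) * (-1) ^ m) * ((j.descFactorial (j - m) : ℕ) : ℝ)|) *
        (1 + r) ^ (2 * j) := by
  unfold Rep.lag
  rw [Finset.sum_mul]
  refine (Finset.abs_sum_le_sum_abs _ _).trans (Finset.sum_le_sum fun m hm => ?_)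
  have hmj : m ≤ j := Nat.lt_succ_iff.1 (Finset.mem_range.1 hm)
  rw [abs_mul]
  apply mul_le_mul_of_nonneg_left _ (abs_nonneg _)
  rw [abs_of_nonneg (by positivity)]
  calc r ^ (2 * m) ≤ (1 + r) ^ (2 * m) := by gcongr; linarith
    _ ≤ (1 + r) ^ (2 * j) := pow_le_pow_right₀ (by linarith) (by omega)

theorem Rep.lag_eq (j : ℕ) (z : ℂ) : ((Rep.lag j ‖z‖ : ℝ) : ℂ) = tp j (fun u => u ^ j) z := by
  rw [Rep.tp_eq (g := fun u => u ^ j) (differentiable_id.pow j)]
  unfold Rep.lag
  push_cast
  apply Finset.sum_congr rfl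
  intro m hm
  have hmj : m ≤ j := Nat.lt_succ_iff.1 (Finset.mem_range.1 hm)
  rw [iteratedDeriv_pow, Nat.sub_sub_self hmj]
  have hc : starRingEnd ℂ z * z = (‖z‖ : ℂ) ^ 2 := by
    rw [mul_comm, Complex.mul_conj, Complex.normSq_eq_norm_sq]
    push_cast
    rfl
  rw [pow_mul, ← hc, mul_pow]
  ring

theorem Rep.tp_zero (j : ℕ) {g : ℂ → ℂ} (hg : Differentiable ℂ g) :
    tp j g 0 = (1 / (j.factorial : ℂ)) * iteratedDeriv j g 0 := by
  rw [Rep.tp_eq hg, Finset.sum_eq_single 0]
  · simp
  · intro m _ hm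
    simp [hm]
  · simp

theorem Rep.idd {g : ℂ → ℂ} (m n : ℕ) :
    iteratedDeriv m (iteratedDeriv n g) = iteratedDeriv (m + n) g := by
  rw [iteratedDeriv_eq_iterate, iteratedDeriv_eq_iterate, iteratedDeriv_eq_iterate,
    Function.iterate_add_apply]

theorem Rep.circ_tp (j : ℕ) {g : ℂ → ℂ} (hg : Differentiable ℂ g) (R : ℝ) (hR : 0 ≤ R) :
    Real.circleAverage (tp j g) 0 R = (Rep.lag j R : ℝ) * tp j g 0 := by
  have e : tp j g = fun z =>
      ∑ m ∈ Finset.range (j + 1), ((1 / (j.factorial : ℂ)) *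
        ((j.choose m : ℂ) * (-1) ^ m)) * ((starRingEnd ℂ z) ^ m * iteratedDeriv (j - m) g z) := by
    funext z
    exact Rep.tp_eq hg z
  conv_lhs => rw [e]
  rw [Rep.circ_sum (j + 1) _ (h := fun m => iteratedDeriv (j - m) g) (fun m => Rep.idiff hg _) R hR,
    Rep.tp_zero j hg]
  unfold Rep.lag
  push_cast
  rw [Finset.sum_mul]
  apply Finset.sum_congr rfl
  intro m hm
  have hmj : m ≤ j := Nat.lt_succ_iff.1 (Finset.mem_range.1 hm)
  rw [Rep.idd, Nat.add_sub_cancel' hmj]
  have h1 : ((m.factorial : ℕ) : ℂ) * ((j.descFactorial (j - m) : ℕ) : ℂ) = (j.factorial : ℕ) := by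
    have := Nat.factorial_mul_descFactorial (Nat.sub_le j m)
    rw [Nat.sub_sub_self hmj] at this
    exact_mod_cast this
  have h2 : (j.factorial : ℂ) ≠ 0 := by exact_mod_cast j.factorial_ne_zero
  have h3 : (m.factorial : ℂ) ≠ 0 := by exact_mod_cast m.factorial_ne_zero
  field_simp
  linear_combination -((j.choose m : ℂ) * (R : ℂ) ^ (2 * m) * iteratedDeriv j g 0) * h1

theorem piece_REP : P_REP := by
  intro j
  have hbd : ∀ z : ℂ, ‖((Rep.lag j ‖z‖ : ℝ) : ℂ)‖ ≤ (∑ m ∈ Finset.range (j + 1),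
      |(1 / (j.factorial : ℝ)) * ((j.choose m : ℝ) * (-1) ^ m) *
        ((j.descFactorial (j - m) : ℕ) : ℝ)|) * (1 + ‖z‖) ^ (2 * j) := by
    intro z
    rw [Complex.norm_real]
    exact Rep.lag_bd j _ (norm_nonneg z)
  have hc : Continuous (fun z : ℂ => ((Rep.lag j ‖z‖ : ℝ) : ℂ)) := by
    have := Rep.lag_cont j
    fun_prop
  have hmem : MemLp (fun z : ℂ => ((Rep.lag j ‖z‖ : ℝ) : ℂ)) 2 gm := piece_POL _ hc ⟨_, _, hbd⟩
  have hsq : Integrable (fun z : ℂ => Rep.lag j ‖z‖ ^ 2) gm := by
    have := (memLp_two_iff_integrable_sq_norm hmem.1).1 hmem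
    refine this.congr ?_
    filter_upwards with z
    rw [Complex.norm_real, Real.norm_eq_abs, sq_abs]
  refine ⟨fun z => ((Rep.lag j ‖z‖ : ℝ) : ℂ), ∫ z : ℂ, Rep.lag j ‖z‖ ^ 2 ∂gm, ?_, hc, ⟨_, _, hbd⟩,
    ⟨fun u => u ^ j, differentiable_id.pow j, Rep.lag_eq j⟩, ?_⟩
  · have h1 := Rep.lag_cont j
    exact Rep.gm_pos (by fun_prop) (fun z => sq_nonneg _) hsq (a := 0)
      (by simp [Rep.lag_zero])
  · intro g hg hL
    have hint : Integrable (fun z => starRingEnd ℂ ((Rep.lag j ‖z‖ : ℝ) : ℂ) * tp j g z) gm := by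
      simp only [Complex.conj_ofReal]
      exact MemLp.integrable_mul hmem hL
    have hcont : Continuous (fun z => starRingEnd ℂ ((Rep.lag j ‖z‖ : ℝ) : ℂ) * tp j g z) := by
      have h1 := Rep.lag_cont j
      have h2 := Rep.tp_cont (j := j) hg
      fun_prop
    rw [Rep.rot_avg_gm (G := fun R => ((Rep.lag j R ^ 2 : ℝ) : ℂ) * tp j g 0) hint hcont]
    · rw [integral_mul_const, integral_complex_ofReal]
    · intro R hR
      simp only [Complex.conj_ofReal]
      rw [Rep.circ_radial (fun r => ((Rep.lag j r : ℝ) : ℂ)) (tp j g) R hR, Rep.circ_tp j hg R hR]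
      push_cast
      ring

end

end TP
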